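import Pool.Agent.Work.MP_92a29d_cert.f3332N_I3.D0

/-! Table of the clauses (generated). -/

set_option autoImplicit false
set_option maxRecDepth 100000

namespace Pool.Agent.Work.MP_92a29d_cert.f3332N_I3

open Pool.Agent.Work.MP_92a29d_co_h93

/-- the tree of the pages -/
noncomputable def T : Tr := d0

/-- `2 ^ 1644` -/
noncomputable def K0 : Nat := nat_lit 0x1000000000000000000000000000000000000000000000000000000000000000000000000000000000000000000000000000000000000000000000000000000000000000000000000000000000000000000000000000000000000000000000000000000000000000000000000000000000000000000000000000000000000000000000000000000000000000000000000000000000000000000000000000000000000000000000000000000000000000000000000000000000000000000000000000000000000000000000000000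

/-- all literals -/
noncomputable def A0 : Nat := nat_lit 0xfffffffffffffffffffffffffffffffffffffffffffffffffffffffffffffffffffffffffffffffffffffffffffffffffffffffffffffffffffffffffffffffffffffffffffffffffffffffffffffffffffffffffffffffffffffffffffffffffffffffffffffffffffffffffffffffffffffffffffffffffffffffffffffffffffffffffffffffffffffffffffffffffffffffffffffffffffffffffffffffffffffffffffffffffffffffffffffffffffffffffffffffffffffffffffffffffffffffffffffffffffff000

/-- the clauses -/
noncomputable def L (i : Nat) : Nat :=
  Lm (nat_lit 1657) (nat_lit 1663) (nat_lit 1667) (nat_lit 1669) (nat_lit 43) (nat_lit 8796093022207) T i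

end Pool.Agent.Work.MP_92a29d_cert.f3332N_I3
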